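import Mathlib
set_option autoImplicit false
open Finset
namespace Pool.Agent.H.MP_900e3c_co

variable {V : Type*} [DecidableEq V] {G : SimpleGraph V}

def Conn (G : SimpleGraph V) (X : Finset V) : Prop :=
  X.Nonempty ∧ ∀ Y : V → Prop, ∀ a ∈ X, ∀ b ∈ X, Y a → ¬Y b →
    ∃ c ∈ X, ∃ e ∈ X, Y c ∧ ¬Y e ∧ G.Adj c e

omit [DecidableEq V] in
lemma conn_iff (X : Finset V) : Conn G X ↔ (G.induce (X : Set V)).Connected := by
  constructor
  · rintro ⟨⟨a, ha⟩, h⟩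
    rw [SimpleGraph.connected_iff_exists_forall_reachable]
    refine ⟨⟨a, ha⟩, fun ⟨b, hb⟩ => ?_⟩
    by_contra k
    obtain ⟨c, hc, e, he, ⟨_, h1⟩, h2, h3⟩ := h (fun v => ∃ hv : v ∈ (X : Set V),
      (G.induce (X : Set V)).Reachable ⟨a, ha⟩ ⟨v, hv⟩) a ha b hb ⟨ha, .refl _⟩ fun k' => k k'.2
    exact h2 ⟨he, h1.trans (SimpleGraph.Adj.reachable (by exact h3))⟩
  · intro h
    obtain ⟨a, ha⟩ := h.nonempty
    refine ⟨⟨a, ha⟩, fun Y a ha b hb h1 h2 => ?_⟩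
    obtain ⟨p⟩ := h.preconnected ⟨a, ha⟩ ⟨b, hb⟩
    obtain ⟨d, -, d1, d2⟩ := p.exists_boundary_dart {v | Y v.1} h1 h2
    exact ⟨_, d.fst.2, _, d.snd.2, d1, d2, d.adj⟩

omit [DecidableEq V] in
lemma Conn.single (v : V) : Conn G {v} :=
  ⟨singleton_nonempty v, fun Y a ha b hb h1 h2 => by simp_all⟩

lemma Conn.union {X Z : Finset V} (hX : Conn G X) (hZ : Conn G Z) {x z : V} (hx : x ∈ X)
    (hz : z ∈ Z) (h : G.Adj x z) : Conn G (X ∪ Z) := by
  refine ⟨⟨x, mem_union_left _ hx⟩, fun Y a ha b hb h1 h2 => ?_⟩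
  by_contra! k
  have kX (a) (ha : a ∈ X) (b) (hb : b ∈ X) (h1 : Y a) : Y b := by
    by_contra h2
    obtain ⟨c, hc, e, he, q1, q2, q3⟩ := hX.2 Y a ha b hb h1 h2
    exact k c (mem_union_left _ hc) e (mem_union_left _ he) q1 q2 q3
  have kZ (a) (ha : a ∈ Z) (b) (hb : b ∈ Z) (h1 : Y a) : Y b := by
    by_contra h2
    obtain ⟨c, hc, e, he, q1, q2, q3⟩ := hZ.2 Y a ha b hb h1 h2
    exact k c (mem_union_right _ hc) e (mem_union_right _ he) q1 q2 q3
  have e1 (q : Y x) : Y z := by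
    by_contra q'
    exact k x (mem_union_left _ hx) z (mem_union_right _ hz) q q' h
  have e2 (q : Y z) : Y x := by
    by_contra q'
    exact k z (mem_union_right _ hz) x (mem_union_left _ hx) q q' h.symm
  rcases mem_union.1 ha with ha | ha <;> rcases mem_union.1 hb with hb | hb
  · exact h2 (kX a ha b hb h1)
  · exact h2 (kZ z hz b hb (e1 (kX a ha x hx h1)))
  · exact h2 (kX x hx b hb (e2 (kZ a ha z hz h1)))
  · exact h2 (kZ a ha b hb h1)

lemma Conn.ins {X : Finset V} (hX : Conn G X) {x v : V} (hx : x ∈ X) (h : G.Adj v x) :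
    Conn G (insert v X) := by
  rw [insert_eq]
  exact (Conn.single v).union hX (mem_singleton_self v) hx h

lemma chain {H Y : Finset V} (hH : Conn G H) (hY : Conn G Y) (hs : Y ⊆ H) {k : ℕ}
    (h1 : Y.card ≤ k) (h2 : k ≤ H.card) : ∃ X, Y ⊆ X ∧ X ⊆ H ∧ Conn G X ∧ X.card = k := by
  induction k, h1 using Nat.le_induction with
  | base => exact ⟨Y, Subset.rfl, hs, hY, rfl⟩
  | succ k _ ih =>
    obtain ⟨X, x1, x2, x3, x4⟩ := ih (by omega)
    obtain ⟨b, hb, hb'⟩ := exists_mem_notMem_of_card_lt_card (s := X) (t := H) (by omega)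
    obtain ⟨a, ha⟩ := x3.1
    obtain ⟨c, -, e, he, q1, q2, q3⟩ := hH.2 (· ∈ X) a (x2 ha) b hb ha hb'
    exact ⟨insert e X, x1.trans (subset_insert _ _), insert_subset he x2, x3.ins q1 q3.symm,
      by rw [card_insert_of_notMem q2, x4]⟩

lemma levels {H : Finset V} (hH : Conn G H) {r : V} (hr : r ∈ H) :
    ∃ (l : V → ℕ) (P : V → Finset V), l r = 0 ∧
      (∀ v ∈ H, ∀ w ∈ H, G.Adj v w → l w ≤ l v + 1) ∧
      (∀ v ∈ H, v ≠ r → ∃ p ∈ H, G.Adj v p ∧ l p + 1 = l v) ∧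
      ∀ v ∈ H, P v ⊆ H ∧ Conn G (P v) ∧ r ∈ P v ∧ v ∈ P v ∧ (P v).card = l v + 1 ∧
        (∀ w ∈ P v, w ≠ v → l w < l v) ∧ ∃ t, ∀ w ∈ P v, G.Adj v w → w = t := by
  classical
  let B : ℕ → Set V := Nat.rec {r} fun _ B => B ∪ {w | ∃ v ∈ H, v ∈ B ∧ G.Adj v w}
  have b1 (v) (hv : v ∈ H) : ∃ n, v ∈ B n := by
    by_contra k
    obtain ⟨c, hc, e, -, ⟨n, q1⟩, q2, q3⟩ := hH.2 (fun v => ∃ n, v ∈ B n) r hr v hv ⟨0, rfl⟩ k
    exact q2 ⟨n + 1, Or.inr ⟨c, hc, q1, q3⟩⟩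
  let l : V → ℕ := fun v => sInf {n | v ∈ B n}
  have l1 (v) (hv : v ∈ H) : v ∈ B (l v) := Nat.sInf_mem (b1 v hv)
  have l2 (v n) (h : v ∈ B n) : l v ≤ n := Nat.sInf_le h
  have l3 (v) (hv : v ∈ H) (w) (_ : w ∈ H) (h : G.Adj v w) : l w ≤ l v + 1 :=
    l2 _ _ (Or.inr ⟨v, hv, l1 v hv, h⟩)
  have l0 : l r = 0 := Nat.le_zero.1 (l2 r 0 rfl)
  have l4 (v) (hv : v ∈ H) (h : v ≠ r) : ∃ p ∈ H, G.Adj v p ∧ l p + 1 = l v := by
    have := l1 v hv
    generalize e : l v = n at this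
    cases n with
    | zero => exact (h this).elim
    | succ n =>
      rcases this with k | ⟨p, p1, p2, p3⟩
      · have := l2 _ _ k
        omega
      · have := l2 _ _ p2
        have := l3 p p1 v hv p3
        exact ⟨p, p1, p3.symm, by omega⟩
  have key (n) (v) (hv : v ∈ H) (e : l v = n) : ∃ P : Finset V, P ⊆ H ∧ Conn G P ∧ r ∈ P ∧ v ∈ P ∧
      P.card = l v + 1 ∧ (∀ w ∈ P, w ≠ v → l w < l v) ∧ ∃ t, ∀ w ∈ P, G.Adj v w → w = t := by
    induction n using Nat.strong_induction_on generalizing v with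
    | _ n ih =>
    rcases eq_or_ne v r with rfl | h
    · exact ⟨{v}, by simpa, .single v, by simp, by simp, by simp [l0], by simp, v, by simp +contextual⟩
    obtain ⟨p, p1, p2, p3⟩ := l4 v hv h
    obtain ⟨P, q1, q2, q3, q4, q5, q6, -⟩ := ih _ (by omega) p p1 rfl
    have q7 (w) (hw : w ∈ P) : l w ≤ l p := by
      rcases eq_or_ne w p with rfl | k
      · rfl
      · exact (q6 w hw k).le
    have q8 : v ∉ P := fun k => by
      have := q7 v k
      omega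
    refine ⟨insert v P, insert_subset hv q1, q2.ins q4 p2, mem_insert_of_mem q3,
      mem_insert_self _ _, by rw [card_insert_of_notMem q8]; omega, fun w hw k => ?_, p,
      fun w hw k => ?_⟩
    · have := q7 w ((mem_insert.1 hw).resolve_left k)
      omega
    · have w1 := (mem_insert.1 hw).resolve_left k.ne'
      by_contra k'
      have := q6 w w1 k'
      have := l3 w (q1 w1) v hv k.symm
      omega
  choose! P hP using fun v hv => key _ v hv rfl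
  exact ⟨l, P, l0, l3, l4, hP⟩

end Pool.Agent.H.MP_900e3c_co
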