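import Pool.Agent.H.MP_900e3c_co.A
set_option autoImplicit false
open Finset
namespace Pool.Agent.H.MP_900e3c_co

variable {V : Type*} [DecidableEq V] {G : SimpleGraph V}

lemma sumB (f : ℕ → ℕ) {h i j : ℕ} (hi : i < h) (hj : j < h)
    (H : ∀ k < h, 2 + (if k = i then 1 else 0) + (if k = j then 1 else 0) ≤
      f (k + 1) + (if k = 0 then 1 else 0) + (if k = h - 1 then 1 else 0)) :
    2 * h ≤ ∑ k ∈ range h, f (k + 1) := by
  have := sum_le_sum (s := range h) fun k hk => H k (mem_range.1 hk)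
  simp only [sum_add_distrib, sum_ite_eq', mem_range, hi, hj, if_true, sum_const, card_range,
    smul_eq_mul, show 0 < h by omega, show h - 1 < h by omega] at this
  omega

open Classical in
noncomputable def Rt (G : SimpleGraph V) (u : V) (H : Finset V) : Finset (Finset V) :=
  H.powerset.filter fun X => Conn G X ∧ ∃ y ∈ X, G.Adj u y

omit [DecidableEq V] in
lemma mem_Rt {u : V} {H X : Finset V} :
    X ∈ Rt G u H ↔ X ⊆ H ∧ Conn G X ∧ ∃ y ∈ X, G.Adj u y := by simp [Rt]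

omit [DecidableEq V] in
lemma card_Rt (u : V) (H : Finset V) : (Rt G u H).card =
    ∑ k ∈ range H.card, ((Rt G u H).filter fun X => X.card = k + 1).card := by
  rw [card_eq_sum_card_fiberwise (f := fun X => X.card - 1) (t := range H.card)]
  · refine sum_congr rfl fun k _ => congrArg card (filter_congr fun X hX => ?_)
    have := (mem_Rt.1 hX).2.1.1.card_pos
    omega
  · intro X hX
    have := (mem_Rt.1 hX).2.1.1.card_pos
    have := card_le_card (mem_Rt.1 hX).1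
    simp only [coe_range, Set.mem_Iio]
    omega

lemma rt1 {H : Finset V} (hH : Conn G H) {u r : V} (hr : r ∈ H) (ur : G.Adj u r) :
    H.card ≤ (Rt G u H).card := by
  rw [card_Rt]
  refine le_trans (by simp) (card_nsmul_le_sum _ _ 1 fun k hk => card_pos.2 ?_)
  obtain ⟨X, x1, x2, x3, x4⟩ := chain hH (.single r) (by simpa) (k := k + 1) (by simp)
    (mem_range.1 hk)
  exact ⟨X, mem_filter.2 ⟨mem_Rt.2 ⟨x2, x3, r, x1 (by simp), ur⟩, x4⟩⟩

lemma rt2 {H : Finset V} (hH : Conn G H) {u r : V} (hr : r ∈ H) (ur : G.Adj u r)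
    (hc : ∀ v ∈ H, ∀ w, G.Adj v w → w ∈ H ∨ w = u)
    (h3 : ∀ v a b, ∃ w, G.Adj v w ∧ w ≠ a ∧ w ≠ b) : 2 * H.card ≤ (Rt G u H).card := by
  obtain ⟨l, P, l0, l1, l2, hP⟩ := levels hH hr
  obtain ⟨z, hz, zm⟩ := exists_max_image H l ⟨r, hr⟩
  have lr (v) (hv : v ∈ H) (h : v ≠ r) : 0 < l v := by
    obtain ⟨p, -, -, e⟩ := l2 v hv h
    omega
  have d1 : 0 < l z := by
    obtain ⟨w, w1, w2, -⟩ := h3 r u u
    have := (hc r hr w w1).resolve_right w2
    exact (lr w this w1.ne').trans_le (zm w this)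
  have zr : r ≠ z := fun e => by rw [← e] at d1; omega
  have zP (w) (hw : w ∈ H) (h : w ≠ z) : z ∉ P w := fun k => by
    have := (hP w hw).2.2.2.2.2.1 z k h.symm
    have := zm w hw
    omega
  have cz : Conn G (H.erase z) := by
    refine ⟨⟨r, mem_erase.2 ⟨zr, hr⟩⟩, fun Y a ha b hb h1 h2 => ?_⟩
    have s (w) (hw : w ∈ H.erase z) : P w ⊆ H.erase z := fun x hx => mem_erase.2
      ⟨fun e => zP w (mem_erase.1 hw).2 (mem_erase.1 hw).1 (e ▸ hx), (hP w (mem_erase.1 hw).2).1 hx⟩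
    by_cases k : Y r
    · obtain ⟨-, q2, q3, q4, -⟩ := hP b (mem_erase.1 hb).2
      obtain ⟨c, c1, e, e1, q⟩ := q2.2 Y r q3 b q4 k h2
      exact ⟨c, s b hb c1, e, s b hb e1, q⟩
    · obtain ⟨-, q2, q3, q4, -⟩ := hP a (mem_erase.1 ha).2
      obtain ⟨c, c1, e, e1, q⟩ := q2.2 Y a q4 r q3 h1 k
      exact ⟨c, s a ha c1, e, s a ha e1, q⟩
  set R := Rt G u H with hR
  let f : ℕ → ℕ := fun k => (R.filter fun X => X.card = k).card
  have f1 {X k} (h : X ∈ R) (e : X.card = k) : 1 ≤ f k := card_pos.2 ⟨X, mem_filter.2 ⟨h, e⟩⟩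
  have f2 {X Y k} (h : X ∈ R) (e : X.card = k) (h' : Y ∈ R) (e' : Y.card = k) (n : X ≠ Y) :
      2 ≤ f k := one_lt_card.2 ⟨X, mem_filter.2 ⟨h, e⟩, Y, mem_filter.2 ⟨h', e'⟩, n⟩
  have f3 {X Y Z k} (h : X ∈ R) (e : X.card = k) (h' : Y ∈ R) (e' : Y.card = k) (h'' : Z ∈ R)
      (e'' : Z.card = k) (n : X ≠ Y) (n' : X ≠ Z) (n'' : Y ≠ Z) : 3 ≤ f k :=
    two_lt_card_iff.2 ⟨X, Y, Z, mem_filter.2 ⟨h, e⟩, mem_filter.2 ⟨h', e'⟩, mem_filter.2 ⟨h'', e''⟩,
      n, n', n''⟩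
  have no (k) (h1 : 1 ≤ k) (h2 : k < H.card) : ∃ X ∈ R, X.card = k ∧ z ∉ X := by
    obtain ⟨X, x1, x2, x3, x4⟩ := chain cz (.single r) (by simp [zr, hr]) (k := k) (by simpa)
      (by rw [card_erase_of_mem hz]; omega)
    exact ⟨X, mem_Rt.2 ⟨x2.trans (erase_subset _ _), x3, r, x1 (by simp), ur⟩, x4,
      fun k => by simpa using x2 k⟩
  have ext {Y} (hY : Y ∈ R) (k) (h1 : Y.card ≤ k) (h2 : k ≤ H.card) :
      ∃ X ∈ R, X.card = k ∧ Y ⊆ X := by
    obtain ⟨y1, y2, y, y3, y4⟩ := mem_Rt.1 hY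
    obtain ⟨X, x1, x2, x3, x4⟩ := chain hH y2 y1 h1 h2
    exact ⟨X, mem_Rt.2 ⟨x2, x3, y, x1 y3, y4⟩, x4, x1⟩
  have ins {Y} (hY : Y ∈ R) {x v} (hx : x ∈ Y) (hv : v ∈ H) (h : G.Adj v x) : insert v Y ∈ R := by
    obtain ⟨y1, y2, y, y3, y4⟩ := mem_Rt.1 hY
    exact mem_Rt.2 ⟨insert_subset hv y1, y2.ins hx h, y, mem_insert_of_mem y3, y4⟩
  have PR (v) (hv : v ∈ H) : P v ∈ R :=
    mem_Rt.2 ⟨(hP v hv).1, (hP v hv).2.1, r, (hP v hv).2.2.1, ur⟩
  have ne {X Y : Finset V} {a} (h : a ∈ X) (h' : a ∉ Y) : X ≠ Y := fun e => h' (e ▸ h)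
  rw [card_Rt]
  by_cases uz : G.Adj u z
  · have zR : {z} ∈ R := mem_Rt.2 ⟨by simpa, .single z, z, by simp, uz⟩
    obtain ⟨a, a1, a2, -⟩ := h3 z u u
    obtain ⟨b, b1, b2, b3⟩ := h3 z u a
    have aH := (hc z hz a a1).resolve_right a2
    have bH := (hc z hz b b1).resolve_right b2
    have hh : 2 < H.card := two_lt_card_iff.2 ⟨z, a, b, hz, aH, bH, a1.ne, b1.ne, b3.symm⟩
    refine sumB f (i := 0) (j := 1) (by omega) (by omega) fun k hk => ?_
    obtain ⟨X, x1, x2, x3⟩ := ext zR (k + 1) (by simp) hk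
    have := f1 x1 x2
    by_cases e : k + 1 = H.card
    · split_ifs <;> omega
    obtain ⟨Y, y1, y2, y3⟩ := no (k + 1) (by omega) (by omega)
    have := f2 x1 x2 y1 y2 (ne (x3 (by simp)) y3)
    by_cases e' : k = 1
    · subst e'
      have : 3 ≤ f (1 + 1) := f3 (ins zR (mem_singleton_self z) aH a1.symm) (card_pair a1.ne')
        (ins zR (mem_singleton_self z) bH b1.symm) (card_pair b1.ne') y1 y2
        (ne (mem_insert_self _ _) (by simp [b3.symm, a1.ne'])) (ne (by simp) y3) (ne (by simp) y3)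
      split_ifs <;> omega
    · split_ifs <;> omega
  obtain ⟨-, -, -, z4, z5, z6, t, z7⟩ := hP z hz
  obtain ⟨a, a1, a2, -⟩ := h3 z t t
  obtain ⟨b, b1, b2, b3⟩ := h3 z t a
  have aH := (hc z hz a a1).resolve_right fun e => uz (e ▸ a1.symm)
  have bH := (hc z hz b b1).resolve_right fun e => uz (e ▸ b1.symm)
  have aP : a ∉ P z := fun k => a2 (z7 a k a1)
  have bP : b ∉ P z := fun k => b2 (z7 b k b1)
  have hh : l z + 3 ≤ H.card := by
    have := card_le_card (insert_subset bH (insert_subset aH (hP z hz).1))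
    rwa [card_insert_of_notMem (by simp [b3, bP]), card_insert_of_notMem aP, z5] at this
  have desc (j) (hj : j ≤ l z) : ∃ e ∈ H, l e = j := by
    induction hj using Nat.decreasingInduction with
    | self => exact ⟨z, hz, rfl⟩
    | of_succ k _ ih =>
      obtain ⟨e, e1, e2⟩ := ih
      obtain ⟨p, p1, -, p2⟩ := l2 e e1 fun q => by rw [q] at e2; omega
      exact ⟨p, p1, by omega⟩
  have lP (v) (hv : v ∈ H) (w) (h : l v ≤ l w) (n : w ≠ v) : w ∉ P v := fun k => by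
    have := (hP v hv).2.2.2.2.2.1 w k n
    omega
  refine sumB f (i := l z) (j := l z + 1) (by omega) (by omega) fun k hk => ?_
  rcases lt_or_ge k (l z) with k1 | k1
  · rcases Nat.eq_zero_or_pos k with rfl | k0
    · obtain ⟨Y, y1, y2, -⟩ := no (0 + 1) le_rfl (by omega)
      have := f1 y1 y2
      rw [if_pos rfl, if_neg (by omega), if_neg (by omega)]
      omega
    suffices 2 ≤ f (k + 1) by split_ifs <;> omega
    obtain ⟨e, e1, e2⟩ := desc (k + 1) k1
    obtain ⟨c, c1, c2, c3⟩ := l2 e e1 fun q => by rw [q] at e2; omega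
    obtain ⟨q, q1, q2, q3⟩ := l2 c c1 fun q => by rw [q] at c3; omega
    obtain ⟨-, -, -, p4, p5, p6, s, p7⟩ := hP q q1
    have cP : c ∉ P q := lP q q1 c (by omega) q2.ne
    have X1 := ins (PR q q1) p4 c1 q2
    have X2 : (insert c (P q)).card = k + 1 := by rw [card_insert_of_notMem cP]; omega
    have alt (w) (w1 : G.Adj q w) (w2 : w ≠ c) (w3 : w ∉ P q) (w4 : w ∈ H) : 2 ≤ f (k + 1) :=
      f2 X1 X2 (ins (PR q q1) p4 w4 w1.symm) (by rw [card_insert_of_notMem w3]; omega)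
        (ne (mem_insert_self _ _) (by simp [w2.symm, cP]))
    rcases eq_or_ne q r with rfl | qr
    · obtain ⟨w, w1, w2, w3⟩ := h3 q c u
      exact alt w w1 w2 (lP q q1 w (by omega) w1.ne') ((hc q q1 w w1).resolve_right w3)
    obtain ⟨w, w1, w2, w3⟩ := h3 q c s
    rcases hc q q1 w w1 with w4 | rfl
    · exact alt w w1 w2 (fun k => w3 (p7 w k w1)) w4
    have qR : {q} ∈ R := mem_Rt.2 ⟨by simpa, .single q, q, by simp, w1.symm⟩
    have := lr q q1 qr
    obtain ⟨X, x1, x2, x3⟩ := ext (ins (ins qR (mem_singleton_self q) c1 q2) (mem_insert_self _ _)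
      e1 c2) (k + 1) (card_le_three.trans (by omega)) hk
    refine f2 x1 x2 X1 X2 (ne (x3 (mem_insert_self _ _)) ?_)
    simp [c2.ne, lP q q1 e (by omega) fun q' => by rw [← q'] at q3; omega]
  obtain ⟨X, x1, x2, x3⟩ := ext (PR z hz) (k + 1) (by omega) hk
  have := f1 x1 x2
  by_cases e : k + 1 = H.card
  · split_ifs <;> omega
  obtain ⟨Y, y1, y2, y3⟩ := no (k + 1) (by omega) (by omega)
  have := f2 x1 x2 y1 y2 (ne (x3 z4) y3)
  by_cases e1 : k = l z + 1
  · have := f3 (ins (PR z hz) z4 aH a1.symm) (by rw [card_insert_of_notMem aP]; omega)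
      (ins (PR z hz) z4 bH b1.symm) (by rw [card_insert_of_notMem bP]; omega) y1 y2
      (ne (mem_insert_self _ _) (by simp [b3.symm, aP])) (ne (mem_insert_of_mem z4) y3)
      (ne (mem_insert_of_mem z4) y3)
    split_ifs <;> omega
  by_cases e2 : k = l z
  · suffices 3 ≤ f (k + 1) by split_ifs <;> omega
    have low (y) (yH : y ∈ H) (ya : G.Adj z y) (yP : y ∉ P z) (h : l y < l z) : 3 ≤ f (k + 1) := by
      have := l1 y yH z hz ya.symm
      refine f3 (ins (PR y yH) (hP y yH).2.2.2.1 hz ya) ?_ (PR z hz) (by omega) y1 y2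
        (ne (mem_insert_of_mem (hP y yH).2.2.2.1) yP) (ne (mem_insert_self _ _) y3) (ne z4 y3)
      rw [card_insert_of_notMem (zP y yH ya.ne'), (hP y yH).2.2.2.2.1]
      omega
    rcases (zm a aH).lt_or_eq with la | la
    · exact low a aH a1 aP la
    rcases (zm b bH).lt_or_eq with lb | lb
    · exact low b bH b1 bP lb
    exact f3 (PR a aH) (by rw [(hP a aH).2.2.2.2.1]; omega) (PR b bH)
      (by rw [(hP b bH).2.2.2.2.1]; omega) (PR z hz) (by omega)
      (ne (hP a aH).2.2.2.1 (lP b bH a (by omega) b3.symm)) (ne (hP a aH).2.2.2.1 aP)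
      (ne (hP b bH).2.2.2.1 bP)
  · split_ifs <;> omega

end Pool.Agent.H.MP_900e3c_co
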