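import Pool.Agent.H.MP_900e3c_co.C
set_option autoImplicit false
open Finset
namespace Pool.Agent.H.MP_900e3c_co

variable {V : Type*} [DecidableEq V] {G : SimpleGraph V}

open Classical in
theorem strict [Fintype V] (hG : Conn G univ) (h3 : ∀ v a b, ∃ w, G.Adj v w ∧ w ≠ a ∧ w ≠ b) :
    (univ.filter (Conn G)).card * Fintype.card V < 2 * ∑ S ∈ univ.filter (Conn G), S.card := by
  set C := univ.filter (Conn G) with hC
  have mC {S} : S ∈ C ↔ Conn G S := by simp [hC]
  let L (S : Finset V) : Finset V := univ.filter fun v => v ∉ S ∧ ∃ x ∈ S, G.Adj v x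
  let F (S : Finset V) : Finset V := univ.filter fun v => v ∉ S ∧ ¬∃ x ∈ S, G.Adj v x
  let K (S : Finset V) : Finset V := S.filter fun v => Conn G (S.erase v)
  let M (S : Finset V) : Finset V := S.filter fun v => ¬Conn G (S.erase v)
  have e1 (S) : S.card + ((L S).card + (F S).card) = Fintype.card V := by
    have := card_filter_add_card_filter_not (s := Sᶜ) fun v => ∃ x ∈ S, G.Adj v x
    rw [show Sᶜ.filter (fun v => ∃ x ∈ S, G.Adj v x) = L S by ext; simp [L],
      show Sᶜ.filter (fun v => ¬∃ x ∈ S, G.Adj v x) = F S by ext; simp [F]] at this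
    rw [this, card_add_card_compl]
  have e2 (S) : (K S).card + (M S).card = S.card := card_filter_add_card_filter_not _
  have e3 : ∑ S ∈ C, (L S).card ≤ ∑ S ∈ C, (K S).card := by
    rw [← card_sigma, ← card_sigma]
    refine card_le_card_of_injOn (fun q => ⟨insert q.2 q.1, q.2⟩) (fun q hq => ?_)
      fun q hq q' hq' e => ?_
    · simp only [coe_sigma, Set.mem_sigma_iff, mem_coe, mC, L, K, mem_filter, mem_univ,
        true_and] at hq ⊢
      obtain ⟨h1, h2, x, h3, h4⟩ := hq
      exact ⟨h1.ins h3 h4, mem_insert_self _ _, by rwa [erase_insert h2]⟩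
    · simp only [coe_sigma, Set.mem_sigma_iff, mem_coe, mC, L, mem_filter, mem_univ,
        true_and] at hq hq'
      obtain ⟨S, v⟩ := q
      obtain ⟨S', v'⟩ := q'
      simp only [Sigma.mk.injEq, heq_eq_eq] at e ⊢
      obtain ⟨e, rfl⟩ := e
      have a : v ∉ S := hq.2.1
      have b : v ∉ S' := hq'.2.1
      exact ⟨by rw [← erase_insert a, e, erase_insert b], rfl⟩
  have e4 : ∑ S ∈ C, 2 * (F S).card ≤ ∑ S ∈ C, (Pr G (L S) (F S)).card := by
    refine sum_le_sum fun S hS => far hG h3 _ _ ?_ (fun v hv w h => ?_) ?_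
    · obtain ⟨s, hs⟩ := (mC.1 hS).1
      exact ⟨s, by simp [F, hs]⟩
    · simp only [F, L, mem_filter, mem_univ, true_and] at hv ⊢
      have : w ∉ S := fun k => hv.2 ⟨w, k, h⟩
      tauto
    · rw [disjoint_left]
      intro v h1 h2
      exact (mem_filter.1 h2).2.2 (mem_filter.1 h1).2.2
  have e5 : ∑ S ∈ C, (Pr G (L S) (F S)).card < (∑ S ∈ C, (M S).card) * 2 := by
    rw [← card_sigma, ← card_sigma, ← Fintype.card_bool, ← card_univ, ← card_product]
    obtain ⟨v0, -⟩ := hG.1
    refine lt_of_le_of_lt ?_ (card_erase_lt_of_mem (a := (⟨{v0}, v0⟩, true)) (by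
      simp only [mem_product, mem_sigma, mC, M, mem_filter, mem_univ, and_true, erase_singleton]
      exact ⟨.single v0, mem_singleton_self _, fun k => by simpa using k.1⟩))
    let o := Fintype.equivFin V
    have pr {S : Finset V} {q : V × Finset V} (h : q ∈ Pr G (L S) (F S)) :
        q.1 ∉ S ∪ q.2 ∧ (∀ x ∈ q.2, x ∉ S ∧ ∀ y ∈ S, ¬G.Adj x y) := by
      obtain ⟨q1, q2, -⟩ := mem_Pr.1 h
      have a (x) (hx : x ∈ q.2) := (mem_filter.1 (q2 hx)).2
      have b := (mem_filter.1 q1).2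
      exact ⟨fun k => (mem_union.1 k).elim b.1 fun k => (a _ k).2 b.2,
        fun x hx => ⟨(a x hx).1, fun y hy k => (a x hx).2 ⟨y, hy, k⟩⟩⟩
    refine card_le_card_of_injOn (fun q => (⟨insert q.2.1 (q.1 ∪ q.2.2), q.2.1⟩,
      decide (∃ x ∈ q.1, ∀ y ∈ q.1 ∪ q.2.2, o x ≤ o y))) (fun q hq => ?_) fun q hq q' hq' e => ?_
    · simp only [coe_sigma, Set.mem_sigma_iff, mem_coe, mC] at hq
      obtain ⟨p1, p2⟩ := pr hq.2
      obtain ⟨q1, q2, q3, y, q4, q5⟩ := mem_Pr.1 hq.2
      obtain ⟨x, x1, x2⟩ := (mem_filter.1 q1).2.2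
      refine mem_coe.2 (mem_erase.2 ⟨fun k => ?_, mem_coe.1 ?_⟩)
      · simp only [Prod.mk.injEq, Sigma.mk.injEq, heq_eq_eq] at k
        have : x ∈ insert q.2.1 (q.1 ∪ q.2.2) := mem_insert_of_mem (mem_union_left _ x1)
        rw [k.1.1, mem_singleton, ← k.1.2] at this
        exact x2.ne' this
      simp only [coe_product, coe_sigma, Set.mem_prod, Set.mem_sigma_iff, mem_coe, mC, M,
        mem_filter, mem_univ, and_true, mem_insert_self, true_and, erase_insert p1]
      refine ⟨?_, fun k => ?_⟩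
      · rw [← insert_union]
        exact (hq.1.ins x1 x2).union q3 (mem_insert_self _ _) q4 q5
      · obtain ⟨c, -, e, e1, c1, c2, c3⟩ := k.2 (· ∈ q.1) x (mem_union_left _ x1) y
          (mem_union_right _ q4) x1 (p2 y q4).1
        exact (p2 e ((mem_union.1 e1).resolve_left c2)).2 c c1 c3.symm
    · simp only [coe_sigma, Set.mem_sigma_iff, mem_coe, mC] at hq hq'
      obtain ⟨S, u, X⟩ := q
      obtain ⟨S', u', X'⟩ := q'
      simp only [Prod.mk.injEq, Sigma.mk.injEq, heq_eq_eq, decide_eq_decide] at e ⊢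
      obtain ⟨⟨e, rfl⟩, e'⟩ := e
      obtain ⟨p1, p2⟩ := pr hq.2
      obtain ⟨p3, p4⟩ := pr hq'.2
      simp only at p1 p2 p3 p4 hq hq'
      have W : S ∪ X = S' ∪ X' := by rw [← erase_insert p1, e, erase_insert p3]
      have sub {A B A' : Finset V} (hA : Conn G A) (h : A ⊆ A' ∪ B)
          (hB : ∀ x ∈ B, ∀ y ∈ A', ¬G.Adj x y) {w} (w1 : w ∈ A) (w2 : w ∈ A') : A ⊆ A' := by
        intro a ha
        by_contra k
        obtain ⟨c, -, e, e1, c1, c2, c3⟩ := hA.2 (· ∈ A') w w1 a ha w2 k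
        exact hB e ((mem_union.1 (h e1)).resolve_left c2) c c1 c3.symm
      have cX := (mem_Pr.1 hq.2).2.2.1
      have cX' := (mem_Pr.1 hq'.2).2.2.1
      obtain ⟨w, w1, w2⟩ := exists_min_image (S ∪ X) o (hq.1.1.mono subset_union_left)
      have m (T : Finset V) (hT : T ⊆ S ∪ X) : (∃ x ∈ T, ∀ y ∈ S ∪ X, o x ≤ o y) ↔ w ∈ T :=
        ⟨fun ⟨x, x1, x2⟩ => o.injective (le_antisymm (x2 w w1) (w2 x (hT x1))) ▸ x1,
          fun k => ⟨w, k, w2⟩⟩
      rw [← W, m S subset_union_left, m S' (W ▸ subset_union_left)] at e'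
      have dj {A B A' B' : Finset V} (e : A ∪ B = A' ∪ B') (e' : A = A') (h : ∀ x ∈ B, x ∉ A)
          (h' : ∀ x ∈ B', x ∉ A') : B = B' := by
        subst e'
        ext x
        have := congrArg (x ∈ ·) e
        simp only [mem_union, eq_iff_iff] at this
        have := h x
        have := h' x
        tauto
      by_cases k : w ∈ S
      · have : S = S' := (sub hq.1 (W ▸ subset_union_left) (fun x hx => (p4 x hx).2) k
          (e'.1 k)).antisymm (sub hq'.1 (W ▸ subset_union_left) (fun x hx => (p2 x hx).2)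
          (e'.1 k) k)
        exact ⟨this, rfl, dj W this (fun x hx => (p2 x hx).1) fun x hx => (p4 x hx).1⟩
      · have k1 := (mem_union.1 w1).resolve_left k
        have k2 := (mem_union.1 (W ▸ w1)).resolve_left fun q => k (e'.2 q)
        rw [union_comm S, union_comm S'] at W
        have : X = X' := (sub cX (W ▸ subset_union_left)
          (fun x hx y hy q => (p4 y hy).2 x hx q.symm) k1 k2).antisymm
          (sub cX' (W ▸ subset_union_left) (fun x hx y hy q => (p2 y hy).2 x hx q.symm) k2 k1)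
        exact ⟨dj W this (fun x hx q => (p2 x q).1 hx) fun x hx q => (p4 x q).1 hx, rfl, this⟩
  have s1 := sum_congr (rfl : C = C) fun S _ => e1 S
  have s2 := sum_congr (rfl : C = C) fun S _ => e2 S
  simp only [sum_add_distrib, sum_const, smul_eq_mul, ← mul_sum] at s1 s2 e4
  have : C.sum card = ∑ x ∈ C, x.card := rfl
  omega

end Pool.Agent.H.MP_900e3c_co
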